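import Pool.Agent.Helper60.SB.Defs2

/-!
Khintchine's inequality for even moments on the cube, and the typical size of a random sum.
-/

open Finset MeasureTheory
open scoped ENNReal Real
open Pool.Agent.Helper60.SB

namespace Pool.Agent.Helper3.SB

lemma av_mono {ι : Type*} [Fintype ι] [DecidableEq ι] {f g : (ι → Bool) → ℝ}
    (h : ∀ β, f β ≤ g β) : av f ≤ av g := by
  unfold av
  gcongr
  exact h _

lemma av_const_mul {ι : Type*} [Fintype ι] [DecidableEq ι] (c : ℝ) (f : (ι → Bool) → ℝ) :
    av (fun β => c * f β) = c * av f := by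
  unfold av
  rw [← Finset.mul_sum, mul_div_assoc]

/-- `x^{2p} / (2p)! ≤ cosh x` -/
lemma pow_le_cosh (p : ℕ) (x : ℝ) : x ^ (2 * p) / (2 * p).factorial ≤ Real.cosh x := by
  have h := Real.hasSum_cosh x
  refine le_hasSum h p ?_
  intro j _
  have : (0:ℝ) ≤ x ^ (2 * j) := by
    rw [pow_mul]; positivity
  positivity

/-- the exponential moment of a Rademacher sum -/
lemma av_exp {ι : Type*} [Fintype ι] [DecidableEq ι] (l : ι → ℝ) :
    av (fun β : ι → Bool => Real.exp (∑ j, l j * sg (β j))) = ∏ j, Real.cosh (l j) := by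
  unfold av
  have h1 : ∀ β : ι → Bool, Real.exp (∑ j, l j * sg (β j)) = ∏ j, Real.exp (l j * sg (β j)) := by
    intro β
    rw [Real.exp_sum]
  simp_rw [h1]
  have h2 : ∑ β : ι → Bool, ∏ j, Real.exp (l j * sg (β j)) =
      ∏ j, ∑ b : Bool, Real.exp (l j * sg b) := by
    rw [Finset.prod_univ_sum]
    rw [Fintype.piFinset_univ]
  rw [h2]
  have h3 : ∀ j, ∑ b : Bool, Real.exp (l j * sg b) = 2 * Real.cosh (l j) := by
    intro j
    rw [Fintype.sum_bool, sg_true, sg_false, Real.cosh_eq]
    rw [mul_one, mul_neg_one]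
    ring
  simp_rw [h3]
  rw [Finset.prod_mul_distrib, Finset.prod_const, Finset.card_univ]
  field_simp

lemma av_cosh_le {ι : Type*} [Fintype ι] [DecidableEq ι] (l : ι → ℝ) :
    av (fun β : ι → Bool => Real.cosh (∑ j, l j * sg (β j))) ≤
      Real.exp ((∑ j, l j ^ 2) / 2) := by
  have h1 : av (fun β : ι → Bool => Real.cosh (∑ j, l j * sg (β j))) =
      (av (fun β : ι → Bool => Real.exp (∑ j, l j * sg (β j))) +
        av (fun β : ι → Bool => Real.exp (∑ j, (-l j) * sg (β j)))) / 2 := by
    unfold av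
    rw [← add_div, ← Finset.sum_add_distrib, div_right_comm]
    congr 1
    rw [Finset.sum_div]
    apply Finset.sum_congr rfl
    intro β _
    show Real.cosh (∑ j, l j * sg (β j)) = _
    rw [Real.cosh_eq]
    congr 3
    rw [← Finset.sum_neg_distrib]
    exact Finset.sum_congr rfl fun j _ => by ring
  rw [h1, av_exp, av_exp]
  simp_rw [Real.cosh_neg]
  rw [add_self_div_two, Finset.sum_div, Real.exp_sum]
  apply Finset.prod_le_prod
  · intro j _
    exact (Real.cosh_pos _).le
  · intro j _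
    exact Real.cosh_le_exp_half_sq _

theorem khin (p : ℕ) {ι : Type*} [Fintype ι] [DecidableEq ι] (l : ι → ℝ) :
    av (fun β : ι → Bool => (∑ j, l j * sg (β j)) ^ (2 * p)) ≤
      (2 * p).factorial * Real.exp (1 / 2) * (∑ j, l j ^ 2) ^ p := by
  set S := ∑ j, l j ^ 2 with hS
  have hS0 : 0 ≤ S := Finset.sum_nonneg fun j _ => sq_nonneg _
  rcases eq_or_lt_of_le hS0 with h0 | h0
  · have hl : ∀ j, l j = 0 := by
      intro j
      have := (Finset.sum_eq_zero_iff_of_nonneg (fun j _ => sq_nonneg (l j))).1 h0.symm j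
        (Finset.mem_univ j)
      exact pow_eq_zero_iff (two_ne_zero) |>.1 this
    have h1 : ∀ β : ι → Bool, (∑ j, l j * sg (β j)) = 0 := by
      intro β
      exact Finset.sum_eq_zero fun j _ => by rw [hl j, zero_mul]
    simp_rw [h1]
    rw [← h0]
    rcases Nat.eq_zero_or_pos p with hp | hp
    · subst hp
      have h2 : av (fun _ : ι → Bool => (0:ℝ) ^ (2 * 0)) = 1 := by
        unfold av
        simp
      rw [h2]
      simp
    · have h2 : av (fun _ : ι → Bool => (0:ℝ) ^ (2 * p)) = 0 := by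
        unfold av
        rw [zero_pow (by omega)]
        simp
      rw [h2]
      positivity
  · set s := Real.sqrt S with hs
    have hs0 : 0 < s := Real.sqrt_pos.2 h0
    have hss : s ^ 2 = S := Real.sq_sqrt hS0
    have h1 : ∀ β : ι → Bool, (∑ j, l j * sg (β j)) ^ (2 * p) =
        ((2 * p).factorial * S ^ p) *
          ((∑ j, (l j / s) * sg (β j)) ^ (2 * p) / (2 * p).factorial) := by
      intro β
      have h3 : ∑ j, (l j / s) * sg (β j) = (∑ j, l j * sg (β j)) / s := by
        rw [Finset.sum_div]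
        exact Finset.sum_congr rfl fun j _ => by ring
      rw [h3, div_pow, pow_mul s, hss]
      have : (S ^ p : ℝ) ≠ 0 := (pow_pos h0 p).ne'
      have h4 : ((2 * p).factorial : ℝ) ≠ 0 := by exact_mod_cast (Nat.factorial_ne_zero _)
      field_simp
    simp_rw [h1]
    rw [av_const_mul]
    have h5 : av (fun β : ι → Bool => (∑ j, (l j / s) * sg (β j)) ^ (2 * p) /
        (2 * p).factorial) ≤ Real.exp (1 / 2) := by
      refine (av_mono fun β => pow_le_cosh p _).trans ?_
      refine (av_cosh_le _).trans (le_of_eq ?_)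
      congr 2
      simp_rw [div_pow]
      rw [← Finset.sum_div, hss, ← hS, div_self h0.ne']
    calc _ ≤ ((2 * p).factorial * S ^ p) * Real.exp (1 / 2) := by gcongr
      _ = _ := by ring

theorem half_good (p : ℕ) (hp : 0 < p) {ι Ω : Type*} [Fintype ι] [DecidableEq ι]
    [MeasurableSpace Ω] (μ : Measure Ω) [IsProbabilityMeasure μ] (Φ : ι → Ω → ℝ)
    (hΦ : ∀ R, Measurable (Φ R)) (S : ℝ) (hS : ∀ x, ∑ R, Φ R x ^ 2 ≤ S) :
    (1 / 2 : ℝ) * 2 ^ Fintype.card ι ≤
      ((univ.filter fun β : ι → Bool =>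
        eLpNorm (fun x => ∑ R, sg (β R) * Φ R x) (2 * p : ℕ) μ ≤
          ENNReal.ofReal ((2 * ((2 * p).factorial * Real.exp (1 / 2))) ^ (1 / (2 * p : ℝ)) *
            Real.sqrt S)).card : ℝ) := by
  classical
  have hne : Nonempty Ω := by
    have := μ.nonempty_of_neZero
    exact this
  have hS0 : 0 ≤ S := (Finset.sum_nonneg fun R _ => sq_nonneg _).trans (hS (Classical.arbitrary Ω))
  set X : (ι → Bool) → Ω → ℝ := fun β x => ∑ R, sg (β R) * Φ R x with hX
  have hXm : ∀ β, Measurable (X β) := fun β =>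
    Finset.measurable_sum _ fun R _ => (hΦ R).const_mul _
  set A : ℝ := (2 * p).factorial * Real.exp (1 / 2) with hA
  have hA0 : 0 < A := by positivity
  -- the moments
  set M : (ι → Bool) → ℝ≥0∞ := fun β => ∫⁻ x, ENNReal.ofReal (X β x ^ (2 * p)) ∂μ with hM
  have hsum : ∑ β, M β ≤ ENNReal.ofReal (A * S ^ p * 2 ^ Fintype.card ι) := by
    rw [hM]
    rw [← lintegral_finsetSum _ (fun β _ => ((hXm β).pow_const _).ennreal_ofReal)]
    have hb : ∀ x, ∑ β, ENNReal.ofReal (X β x ^ (2 * p)) ≤
        ENNReal.ofReal (A * S ^ p * 2 ^ Fintype.card ι) := by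
      intro x
      have h0 : ∀ β, 0 ≤ X β x ^ (2 * p) := fun β => by rw [pow_mul]; positivity
      rw [← ENNReal.ofReal_sum_of_nonneg fun β _ => h0 β]
      apply ENNReal.ofReal_le_ofReal
      have hk := khin p (fun R => Φ R x)
      unfold av at hk
      rw [div_le_iff₀ (by positivity)] at hk
      have h2 : ∑ β, X β x ^ (2 * p) = ∑ β : ι → Bool, (∑ j, Φ j x * sg (β j)) ^ (2 * p) := by
        apply Finset.sum_congr rfl
        intro β _
        rw [hX]
        congr 1
        exact Finset.sum_congr rfl fun R _ => mul_comm _ _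
      rw [h2]
      refine hk.trans ?_
      have h3 : (∑ j, Φ j x ^ 2) ^ p ≤ S ^ p :=
        pow_le_pow_left₀ (Finset.sum_nonneg fun R _ => sq_nonneg _) (hS x) p
      gcongr
    calc _ ≤ ∫⁻ _x, ENNReal.ofReal (A * S ^ p * 2 ^ Fintype.card ι) ∂μ := lintegral_mono hb
      _ = _ := by simp
  -- comparison of the norm with the moment
  have hnorm : ∀ β, M β ≤ ENNReal.ofReal (2 * A * S ^ p) →
      eLpNorm (X β) (2 * p : ℕ) μ ≤ ENNReal.ofReal ((2 * A) ^ (1 / (2 * p : ℝ)) * Real.sqrt S) := by
    intro β hβ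
    have hp2 : ((2 * p : ℕ) : ℝ≥0∞) ≠ 0 := by
      have : (2 * p : ℕ) ≠ 0 := by omega
      exact_mod_cast this
    have hp3 : ((2 * p : ℕ) : ℝ≥0∞) ≠ ⊤ := ENNReal.natCast_ne_top _
    rw [eLpNorm_eq_lintegral_rpow_enorm_toReal hp2 hp3]
    have h1 : ((2 * p : ℕ) : ℝ≥0∞).toReal = (2 * p : ℝ) := by
      rw [ENNReal.toReal_natCast]; push_cast; ring
    rw [h1]
    have h2 : ∫⁻ x, ‖X β x‖ₑ ^ (2 * p : ℝ) ∂μ = M β := by
      rw [hM]
      apply lintegral_congr
      intro x
      have h3 : (2 * p : ℝ) = ((2 * p : ℕ) : ℝ) := by push_cast; ring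
      rw [h3, ENNReal.rpow_natCast, ← ofReal_norm, ← ENNReal.ofReal_pow (norm_nonneg _),
        Real.norm_eq_abs, pow_mul, sq_abs, ← pow_mul]
    rw [h2]
    have hpp : (0:ℝ) < 2 * p := by
      have : (0:ℝ) < p := by exact_mod_cast hp
      linarith
    calc M β ^ (1 / (2 * p : ℝ)) ≤ (ENNReal.ofReal (2 * A * S ^ p)) ^ (1 / (2 * p : ℝ)) := by
          exact ENNReal.rpow_le_rpow hβ (by positivity)
      _ = ENNReal.ofReal ((2 * A * S ^ p) ^ (1 / (2 * p : ℝ))) := by
          rw [ENNReal.ofReal_rpow_of_nonneg (by positivity) (by positivity)]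
      _ = ENNReal.ofReal ((2 * A) ^ (1 / (2 * p : ℝ)) * Real.sqrt S) := by
          congr 1
          rw [Real.mul_rpow (by positivity) (by positivity)]
          congr 1
          rw [← Real.rpow_natCast, ← Real.rpow_mul hS0, Real.sqrt_eq_rpow]
          congr 1
          have : (p:ℝ) ≠ 0 := by
            have : (0:ℝ) < p := by exact_mod_cast hp
            exact this.ne'
          field_simp
  -- the bad set
  set bad := univ.filter fun β : ι → Bool => ¬ M β ≤ ENNReal.ofReal (2 * A * S ^ p) with hbad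
  set good := univ.filter fun β : ι → Bool => M β ≤ ENNReal.ofReal (2 * A * S ^ p) with hgood
  have hcard : good.card + bad.card = 2 ^ Fintype.card ι := by
    rw [hgood, hbad, Finset.card_filter_add_card_filter_not, Finset.card_univ]
    simp
  have hsub : good ⊆ univ.filter fun β : ι → Bool =>
        eLpNorm (fun x => ∑ R, sg (β R) * Φ R x) (2 * p : ℕ) μ ≤
          ENNReal.ofReal ((2 * ((2 * p).factorial * Real.exp (1 / 2))) ^ (1 / (2 * p : ℝ)) *
            Real.sqrt S) := by
    intro β hβ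
    rw [hgood, Finset.mem_filter] at hβ
    rw [Finset.mem_filter]
    exact ⟨Finset.mem_univ _, hnorm β hβ.2⟩
  have hbadc : (bad.card : ℝ) ≤ 1 / 2 * 2 ^ Fintype.card ι := by
    have h1 : (bad.card : ℝ≥0∞) * ENNReal.ofReal (2 * A * S ^ p) ≤ ∑ β, M β := by
      calc (bad.card : ℝ≥0∞) * ENNReal.ofReal (2 * A * S ^ p) =
          ∑ β ∈ bad, ENNReal.ofReal (2 * A * S ^ p) := by
            rw [Finset.sum_const, nsmul_eq_mul]
        _ ≤ ∑ β ∈ bad, M β := by
            apply Finset.sum_le_sum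
            intro β hβ
            rw [hbad, Finset.mem_filter] at hβ
            exact (not_le.1 hβ.2).le
        _ ≤ ∑ β, M β := Finset.sum_le_sum_of_subset (Finset.subset_univ _)
    have h2 := h1.trans hsum
    rcases eq_or_lt_of_le hS0 with h0 | h0
    · -- S = 0
      have h3 : bad = ∅ := by
        rw [Finset.eq_empty_iff_forall_notMem]
        intro β hβ
        rw [hbad, Finset.mem_filter] at hβ
        apply hβ.2
        have h4 : M β ≤ ∑ β, M β := Finset.single_le_sum (f := M) (fun _ _ => zero_le) (Finset.mem_univ β)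
        refine h4.trans (hsum.trans ?_)
        rw [← h0, zero_pow (by omega)]
        simp
      rw [h3]
      simp
    · have h3 : (bad.card : ℝ≥0∞) = ENNReal.ofReal (bad.card : ℝ) := by simp
      rw [h3, ← ENNReal.ofReal_mul (by positivity)] at h2
      rw [ENNReal.ofReal_le_ofReal_iff (by positivity)] at h2
      have h4 : 0 < A * S ^ p := by positivity
      have h5 : (A * S ^ p) * (2 * bad.card) ≤ (A * S ^ p) * 2 ^ Fintype.card ι := by
        calc _ = (bad.card : ℝ) * (2 * A * S ^ p) := by ring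
          _ ≤ _ := h2
      have h6 := le_of_mul_le_mul_left h5 h4
      linarith
  have h7 : (good.card : ℝ) + bad.card = 2 ^ Fintype.card ι := by exact_mod_cast hcard
  have h8 : (good.card : ℝ) ≤ ((univ.filter fun β : ι → Bool =>
        eLpNorm (fun x => ∑ R, sg (β R) * Φ R x) (2 * p : ℕ) μ ≤
          ENNReal.ofReal ((2 * ((2 * p).factorial * Real.exp (1 / 2))) ^ (1 / (2 * p : ℝ)) *
            Real.sqrt S)).card : ℝ) := by
    exact_mod_cast Finset.card_le_card hsub
  linarith

end Pool.Agent.Helper3.SB
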