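import Pool.Agent.Helper3.SB.F2
import Pool.Agent.Helper22.SB.F0
import Pool.Agent.Helper96.SB.S

/-!
Module F3 of MP_7fc85e_an: for at least half of the sign patterns the random sum of building blocks
lies in `W^r_p` after the right normalisation.
-/

open Finset MeasureTheory
open scoped ENNReal Real
open Pool.Agent.Helper60.SB

namespace Pool.Agent.Helper3.SB

lemma isProb_tor1 : IsProbabilityMeasure tor1 := by
  constructor
  unfold tor1
  rw [Measure.smul_apply, Measure.restrict_apply_univ, Real.volume_Ico, sub_zero, smul_eq_mul]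
  apply ENNReal.inv_mul_cancel
  · rw [ne_eq, ENNReal.ofReal_eq_zero, not_le]
    exact Real.two_pi_pos
  · exact ENNReal.ofReal_ne_top

lemma isProb_tor (d : ℕ) : IsProbabilityMeasure (tor d) := by
  have := isProb_tor1
  unfold tor
  infer_instance

/-- the product function attached to a box -/
noncomputable def phR {e m : ℕ} (φ : ℕ → ℕ → ℝ → ℝ) (R : Box e m) (y : Fin (e + 2) → ℝ) : ℝ :=
  ∏ j, φ (shp e m R.1 j) (R.2 j) (y j)

lemma continuous_phR {e m : ℕ} (φ : ℕ → ℕ → ℝ → ℝ) (hφ : ∀ s c, Continuous (φ s c))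
    (R : Box e m) : Continuous (phR φ R) := by
  unfold phR
  exact continuous_finsetProd _ fun j _ => (hφ _ _).comp (continuous_apply j)

/-- bound of the square function -/
lemma sum_sq_phR {e m : ℕ} (φ : ℕ → ℕ → ℝ → ℝ) (C r : ℝ)
    (hφ : ∀ (s : ℕ) (t : ℝ), ∑ c ∈ range (2 ^ s), (φ s c t) ^ 2 ≤ C * ((2 : ℝ) ^ s) ^ (2 * r))
    (y : Fin (e + 2) → ℝ) :
    ∑ R : Box e m, phR φ R y ^ 2 ≤
      (m : ℝ) ^ (e + 1) * (C ^ (e + 2) * ((2 : ℝ) ^ ((e + 2) * m)) ^ (2 * r)) := by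
  have h1 : ∀ t : Fin (e + 1) → Fin m,
      ∑ c : ((j : Fin (e + 2)) → Fin (2 ^ shp e m t j)), phR φ ⟨t, c⟩ y ^ 2 ≤
        C ^ (e + 2) * ((2 : ℝ) ^ ((e + 2) * m)) ^ (2 * r) := by
    intro t
    have h2 : ∑ c : ((j : Fin (e + 2)) → Fin (2 ^ shp e m t j)), phR φ ⟨t, c⟩ y ^ 2 =
        ∏ j : Fin (e + 2), ∑ c : Fin (2 ^ shp e m t j), φ (shp e m t j) c (y j) ^ 2 := by
      rw [Finset.prod_univ_sum, Fintype.piFinset_univ]
      apply Finset.sum_congr rfl
      intro c _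
      unfold phR
      rw [Finset.prod_pow]
    rw [h2]
    calc ∏ j : Fin (e + 2), ∑ c : Fin (2 ^ shp e m t j), φ (shp e m t j) c (y j) ^ 2 ≤
        ∏ j : Fin (e + 2), C * ((2 : ℝ) ^ shp e m t j) ^ (2 * r) := by
          apply Finset.prod_le_prod
          · intro j _
            exact Finset.sum_nonneg fun c _ => sq_nonneg _
          · intro j _
            rw [← Finset.sum_range fun c => φ (shp e m t j) c (y j) ^ 2]
            exact hφ _ _
      _ = C ^ (e + 2) * ((2 : ℝ) ^ ((e + 2) * m)) ^ (2 * r) := by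
          rw [Finset.prod_mul_distrib, Finset.prod_const, Finset.card_univ, Fintype.card_fin]
          congr 1
          rw [Real.finsetProd_rpow _ _ (fun j _ => by positivity), Finset.prod_pow_eq_pow_sum,
            Helper96.SB.sum_shp]
  rw [Fintype.sum_sigma]
  calc ∑ t : Fin (e + 1) → Fin m, ∑ c : ((j : Fin (e + 2)) → Fin (2 ^ shp e m t j)),
        phR φ ⟨t, c⟩ y ^ 2 ≤
      ∑ t : Fin (e + 1) → Fin m, C ^ (e + 2) * ((2 : ℝ) ^ ((e + 2) * m)) ^ (2 * r) :=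
        Finset.sum_le_sum fun t _ => h1 t
    _ = _ := by
        rw [Finset.sum_const, Finset.card_univ, Fintype.card_fun, Fintype.card_fin,
          Fintype.card_fin, nsmul_eq_mul]
        push_cast
        ring

lemma integrable_bern_mul (r : ℝ) (hr : 0 < r) (f : ℝ → ℝ) (hf : Continuous f) (x : ℝ) :
    Integrable (fun y => bern r r (x - y) * f y) tor1 := by
  obtain ⟨B, hB⟩ := (isCompact_Icc (a := (0:ℝ)) (b := 2 * π)).exists_bound_of_continuousOn
    hf.continuousOn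
  have h1 : ∀ᵐ y ∂tor1, ‖f y‖ ≤ B := by
    unfold tor1
    refine (Measure.smul_absolutelyContinuous (c := (ENNReal.ofReal (2 * π))⁻¹)).ae_le ?_
    refine (ae_restrict_iff' measurableSet_Ico).2 (Filter.Eventually.of_forall fun y hy => ?_)
    exact hB y ⟨hy.1, hy.2.le⟩
  exact (Helper22.SB.bern_integrable r r hr x).mul_bdd hf.aestronglyMeasurable h1

/-- the convolution of the kernel with a product function -/
lemma conv_phR {e m : ℕ} (u : ℝ → ℝ) (φ : ℕ → ℕ → ℝ → ℝ) (r : ℝ)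
    (hφ : ∀ s c, c < 2 ^ s → ∀ x, ∫ y, bern r r (x - y) * φ s c y ∂tor1 = ub u s c x)
    (R : Box e m) (x : Fin (e + 2) → ℝ) :
    ∫ y, Fker r (x - y) * phR φ R y ∂(tor (e + 2)) = bxp u R x := by
  have := isProb_tor1
  have h1 : ∀ y : Fin (e + 2) → ℝ, Fker r (x - y) * phR φ R y =
      ∏ j, (bern r r (x j - y j) * φ (shp e m R.1 j) (R.2 j) (y j)) := by
    intro y
    unfold Fker phR
    rw [← Finset.prod_mul_distrib]
    rfl
  simp_rw [h1]
  unfold tor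
  rw [integral_fintype_prod_eq_prod
    (fun j z => bern r r (x j - z) * φ (shp e m R.1 j) (R.2 j) z)]
  unfold bxp
  apply Finset.prod_congr rfl
  intro j _
  exact hφ _ _ (R.2 j).2 _

lemma integrable_phR {e m : ℕ} (φ : ℕ → ℕ → ℝ → ℝ) (hφc : ∀ s c, Continuous (φ s c)) (r : ℝ)
    (hr : 0 < r) (R : Box e m) (x : Fin (e + 2) → ℝ) :
    Integrable (fun y => Fker r (x - y) * phR φ R y) (tor (e + 2)) := by
  have := isProb_tor1
  have h1 : (fun y : Fin (e + 2) → ℝ => Fker r (x - y) * phR φ R y) = fun y =>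
      ∏ j, (bern r r (x j - y j) * φ (shp e m R.1 j) (R.2 j) (y j)) := by
    funext y
    unfold Fker phR
    rw [← Finset.prod_mul_distrib]
    rfl
  rw [h1]
  unfold tor
  exact Integrable.fintype_prod_dep
    (f := fun j z => bern r r (x j - z) * φ (shp e m R.1 j) (R.2 j) z)
    fun j => integrable_bern_mul r hr _ (hφc _ _) _

open scoped Classical in
theorem half_in_W_of (e : ℕ) (u : ℝ → ℝ) (r : ℝ) (hr : 0 < r)
    (huni : ∃ (φ : ℕ → ℕ → ℝ → ℝ) (C : ℝ), 0 < C ∧ (∀ s c, Continuous (φ s c)) ∧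
      (∀ s c, c < 2 ^ s → ∀ x, ∫ y, bern r r (x - y) * φ s c y ∂tor1 = ub u s c x) ∧
      (∀ (s : ℕ) (t : ℝ), ∑ c ∈ range (2 ^ s), (φ s c t) ^ 2 ≤ C * ((2 : ℝ) ^ s) ^ (2 * r)))
    (p : ℝ≥0∞) (hp : p ≠ ⊤) (𝕜 : Type) [RCLike 𝕜] :
    ∃ K > 0, ∀ m : ℕ, 0 < m →
      (1 / 2 : ℝ) * 2 ^ Fintype.card (Box e m) ≤
      ((univ.filter fun β : Box e m → Bool =>
        (fun x => ((K * (2 : ℝ) ^ (-(r * ((e + 2) * m))) * (m : ℝ) ^ (-(((e : ℝ) + 1) / 2)) *
            ∑ R, sg (β R) * bxp u R x : ℝ) : 𝕜)) ∈ Wclass (e + 2) 𝕜 r p).card : ℝ) := by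
  obtain ⟨φ, C, hC, hφc, hφ1, hφ2⟩ := huni
  have := isProb_tor1
  have := isProb_tor (e + 2)
  -- choose `q`
  obtain ⟨q, hq0, hq⟩ : ∃ q : ℕ, 0 < q ∧ p ≤ ((2 * q : ℕ) : ℝ≥0∞) := by
    obtain ⟨n, hn⟩ := ENNReal.exists_nat_gt hp
    refine ⟨n + 1, by omega, hn.le.trans ?_⟩
    exact_mod_cast (by omega : n ≤ 2 * (n + 1))
  set B : ℝ := (2 * ((2 * q).factorial * Real.exp (1 / 2))) ^ (1 / (2 * q : ℝ)) with hB
  have hB0 : 0 < B := by positivity
  set D : ℝ := Real.sqrt (C ^ (e + 2)) with hD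
  have hD0 : 0 < D := by positivity
  refine ⟨1 / (B * D), by positivity, ?_⟩
  intro m hm
  have hm0 : (0:ℝ) < m := by exact_mod_cast hm
  set S : ℝ := (m : ℝ) ^ (e + 1) * (C ^ (e + 2) * ((2 : ℝ) ^ ((e + 2) * m)) ^ (2 * r)) with hS
  have hgood := half_good q hq0 (tor (e + 2)) (fun R : Box e m => phR φ R)
    (fun R => (continuous_phR φ hφc R).measurable) S (fun y => sum_sq_phR φ C r hφ2 y)
  refine hgood.trans ?_
  rw [Nat.cast_le]
  apply Finset.card_le_card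
  intro β hβ
  rw [Finset.mem_filter] at hβ ⊢
  refine ⟨Finset.mem_univ _, ?_⟩
  obtain ⟨-, hβ⟩ := hβ
  -- normalisation
  set κ : ℝ := 1 / (B * D) * (2 : ℝ) ^ (-(r * ((e + 2) * m))) * (m : ℝ) ^ (-(((e : ℝ) + 1) / 2))
    with hκ
  have hκ0 : 0 < κ := by positivity
  have hκS : κ * (B * Real.sqrt S) = 1 := by
    have h1 : Real.sqrt S = (m : ℝ) ^ (((e : ℝ) + 1) / 2) * (D * (2 : ℝ) ^ (r * ((e + 2) * m))) := by
      rw [hS, Real.sqrt_mul (by positivity), Real.sqrt_mul (by positivity), ← hD]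
      congr 1
      · rw [Real.sqrt_eq_rpow, ← Real.rpow_natCast, ← Real.rpow_mul hm0.le]
        congr 1
        push_cast
        ring
      · congr 1
        have h2 : ((2 : ℝ) ^ ((e + 2) * m : ℕ)) = (2 : ℝ) ^ (((e : ℝ) + 2) * m) := by
          rw [← Real.rpow_natCast]
          push_cast
          rfl
        rw [h2, Real.sqrt_eq_rpow, ← Real.rpow_mul (x := (2 : ℝ)) (by norm_num),
          ← Real.rpow_mul (x := (2 : ℝ)) (by norm_num)]
        congr 1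
        ring
    rw [h1, hκ, Real.rpow_neg (by norm_num), Real.rpow_neg hm0.le]
    have e1 : (2 : ℝ) ^ (r * ((e + 2) * m)) ≠ 0 := by positivity
    have e2 : (m : ℝ) ^ (((e : ℝ) + 1) / 2) ≠ 0 := by positivity
    field_simp
  -- the function whose potential we take
  set ψ : (Fin (e + 2) → ℝ) → ℝ := fun y => κ * ∑ R, sg (β R) * phR φ R y with hψ
  have hψc : Continuous ψ := by
    rw [hψ]
    exact continuous_const.mul (continuous_finsetSum _ fun R _ =>
      continuous_const.mul (continuous_phR φ hφc R))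
  have hψm : AEStronglyMeasurable (fun y => (ψ y : 𝕜)) (tor (e + 2)) :=
    (RCLike.continuous_ofReal.comp hψc).aestronglyMeasurable
  have hnorm : eLpNorm (fun y => (ψ y : 𝕜)) p (tor (e + 2)) ≤ 1 := by
    calc eLpNorm (fun y => (ψ y : 𝕜)) p (tor (e + 2)) ≤
        eLpNorm (fun y => (ψ y : 𝕜)) ((2 * q : ℕ) : ℝ≥0∞) (tor (e + 2)) :=
          eLpNorm_le_eLpNorm_of_exponent_le hq hψm
      _ = eLpNorm ψ ((2 * q : ℕ) : ℝ≥0∞) (tor (e + 2)) := by
          apply eLpNorm_congr_norm_ae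
          refine Filter.Eventually.of_forall fun y => ?_
          show ‖(ψ y : 𝕜)‖ = ‖ψ y‖
          rw [RCLike.norm_ofReal, Real.norm_eq_abs]
      _ = ENNReal.ofReal κ * eLpNorm (fun y => ∑ R, sg (β R) * phR φ R y)
            ((2 * q : ℕ) : ℝ≥0∞) (tor (e + 2)) := by
          rw [hψ]
          have := eLpNorm_const_smul κ (fun y : Fin (e + 2) → ℝ => ∑ R, sg (β R) * phR φ R y)
            ((2 * q : ℕ) : ℝ≥0∞) (tor (e + 2))
          have h2 : (κ • fun y : Fin (e + 2) → ℝ => ∑ R, sg (β R) * phR φ R y) =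
              fun y => κ * ∑ R, sg (β R) * phR φ R y := by
            funext y
            rfl
          rw [h2] at this
          rw [this]
          congr 1
          rw [Real.enorm_eq_ofReal hκ0.le]
      _ ≤ ENNReal.ofReal κ * ENNReal.ofReal (B * Real.sqrt S) := by
          gcongr
      _ = 1 := by
          rw [← ENNReal.ofReal_mul hκ0.le, hκS, ENNReal.ofReal_one]
  refine ⟨fun y => (ψ y : 𝕜), ⟨hψm, hnorm.trans_lt ENNReal.one_lt_top⟩, hnorm, ?_⟩
  funext x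
  have h3 : ∀ y : Fin (e + 2) → ℝ, (Fker r (x - y) : 𝕜) * (ψ y : 𝕜) =
      ((Fker r (x - y) * ψ y : ℝ) : 𝕜) := by
    intro y
    push_cast
    rfl
  simp_rw [h3]
  rw [integral_ofReal]
  congr 1
  have h4 : ∀ y : Fin (e + 2) → ℝ, Fker r (x - y) * ψ y =
      κ * ∑ R, sg (β R) * (Fker r (x - y) * phR φ R y) := by
    intro y
    rw [hψ]
    show Fker r (x - y) * (κ * ∑ R, sg (β R) * phR φ R y) = _
    rw [mul_left_comm, Finset.mul_sum]
    congr 1
    exact Finset.sum_congr rfl fun R _ => by ring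
  simp_rw [h4]
  rw [integral_const_mul, integral_finsetSum _ fun R _ =>
    (integrable_phR φ hφc r hr R x).const_mul _]
  simp_rw [integral_const_mul, conv_phR u φ r hφ1]

/-- The exact statement of module F3, with the statement of module F1 as a hypothesis. -/
theorem half_in_W
    (exists_uni : ∀ (u : ℝ → ℝ), ContDiff ℝ (⊤ : ℕ∞) u →
      (∀ t, (t ≤ 1 / 10 ∨ 9 / 10 ≤ t) → u t = 0) → ∫ t, u t = 0 → ∀ r a : ℝ, 0 < r →
      ∃ (φ : ℕ → ℕ → ℝ → ℝ) (C : ℝ), 0 < C ∧ (∀ s c, Continuous (φ s c)) ∧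
        (∀ s c, c < 2 ^ s → ∀ x, ∫ y, bern r a (x - y) * φ s c y ∂tor1 = ub u s c x) ∧
        (∀ (s : ℕ) (t : ℝ), ∑ c ∈ range (2 ^ s), (φ s c t) ^ 2 ≤ C * ((2 : ℝ) ^ s) ^ (2 * r)))
    (e : ℕ) (u : ℝ → ℝ) (hu : ContDiff ℝ (⊤ : ℕ∞) u)
    (hsupp : ∀ t, (t ≤ 1 / 10 ∨ 9 / 10 ≤ t) → u t = 0) (hint : ∫ t, u t = 0) (r : ℝ) (hr : 0 < r)
    (p : ℝ≥0∞) (hp : p ≠ ⊤) (𝕜 : Type) [RCLike 𝕜] :
    ∃ K > 0, ∀ m : ℕ, 0 < m →
      (1 / 2 : ℝ) * 2 ^ Fintype.card (Box e m) ≤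
      (open scoped Classical in ((univ.filter fun β : Box e m → Bool =>
        (fun x => ((K * (2 : ℝ) ^ (-(r * ((e + 2) * m))) * (m : ℝ) ^ (-(((e : ℝ) + 1) / 2)) *
            ∑ R, sg (β R) * bxp u R x : ℝ) : 𝕜)) ∈ Wclass (e + 2) 𝕜 r p).card : ℝ)) :=
  half_in_W_of e u r hr (exists_uni u hu hsupp hint r r hr) p hp 𝕜

end Pool.Agent.Helper3.SB
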